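import Pool.Agent.H378R2.RM.SurvM
import Pool.Agent.H378R2.RM.Ev
import Pool.Agent.TH536.RG.Main

set_option autoImplicit false
set_option maxHeartbeats 4000000

/-! # Residue classes without small rough numbers

After `Pool.Agent.H378R2.RM.RecMod` (helper378 and team): the sieving primes are at most `y`, with `y` down to a
power of `log d`, and the class is found in every interval of length `d^(7/10)`. -/

namespace Pool.Agent.TH536.RJ

open Finset Pool.Agent.H256R2.SC.G3 Pool.Agent.H378R2.RM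
open Pool.Agent.TH536.RG (RR covering_gen exists_scale)

open scoped Classical

theorem rough_progression (A : ℝ) (hA : 0 ≤ A) :
    ∃ c E : ℝ, 0 < c ∧ 1 ≤ E ∧ ∃ d₀ : ℕ, ∀ d : ℕ, d₀ ≤ d → (d : ℝ) ≤ A * (Nat.totient d : ℝ) →
    (∑ p ∈ d.primeFactors with Real.exp (Real.log (Real.log d) * Real.log (Real.log (Real.log (Real.log d))) /
      (20 * Real.log (Real.log (Real.log d)))) < ((p : ℕ) : ℝ), 1 / ((p : ℕ) : ℝ)) ≤ A / Real.log (Real.log d) →
    ∀ Y : ℝ, (Real.log d) ^ E ≤ Y → Y ≤ d → ∀ M₀ : ℕ,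
    ∃ a : ℕ, M₀ < a ∧ (a : ℝ) ≤ M₀ + (d : ℝ) ^ (7 / 10 : ℝ) ∧ Nat.Coprime a d ∧
      ∀ k : ℕ, (k : ℝ) ≤ c * (RR d * Real.log (Real.log Y / Real.log (Real.log d))) →
        ∃ p : ℕ, p.Prime ∧ (p : ℝ) ≤ Y ∧ p ∣ a + k * d := by
  obtain ⟨c₁, hc₁, C₀, hC₀, X₀, hcov⟩ := covering_gen
  obtain ⟨C, hC0, y₀, hsurv⟩ := survE A hA
  obtain ⟨D₁, hD₁⟩ := omega_bound
  obtain ⟨X₃, hsc⟩ := exists_scale C₀ hC₀
  set A' : ℝ := max A 1 with hA'
  have hA'1 : 1 ≤ A' := le_max_right _ _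
  have hAA' : A ≤ A' := le_max_left _ _
  have hA'0 : 0 < A' := by linarith
  set c' : ℝ := min 1 (c₁ / (6 * (A' * C))) with hc'
  have hc'0 : 0 < c' := by rw [hc']; exact lt_min one_pos (by positivity)
  have hc'1 : c' ≤ 1 := min_le_left _ _
  have hc'2 : 6 * (A' * C) * c' ≤ c₁ := by
    have h1 : c' ≤ c₁ / (6 * (A' * C)) := min_le_right _ _
    rw [le_div_iff₀ (by positivity)] at h1
    linarith
  obtain ⟨l₀, hev⟩ := ev_rm (1 / c') y₀
  obtain ⟨D₂, hD₂⟩ : ∃ D₂ : ℕ, Real.exp (max 400 l₀) ≤ D₂ := exists_nat_ge _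
  obtain ⟨D₃, hD₃⟩ : ∃ D₃ : ℕ, max X₀ X₃ ≤ D₃ := exists_nat_ge _
  have hC2 : 1 ≤ (2 * C₀) ^ 2 := one_le_pow₀ (by linarith)
  refine ⟨c' / 2, (2 * C₀) ^ 2, by positivity, hC2, max D₁ (max D₂ D₃),
    fun d hd hphid hcond Y hY1 hY2 M₀ => ?_⟩
  have hd1 : D₁ ≤ d := (le_max_left _ _).trans hd
  have hd2 : D₂ ≤ d := ((le_max_left _ _).trans (le_max_right _ _)).trans hd
  have hd3 : D₃ ≤ d := ((le_max_right _ _).trans (le_max_right _ _)).trans hd
  have hX0 : X₀ ≤ d := ((le_max_left _ _).trans hD₃).trans (by exact_mod_cast hd3)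
  have hX3 : X₃ ≤ d := ((le_max_right _ _).trans hD₃).trans (by exact_mod_cast hd3)
  obtain ⟨m, hm1, hm2, hΔ1, hΔ2, hΔ3⟩ := hsc d hX3 Y hY1 hY2
  obtain ⟨Δ, hΔ⟩ : ∃ Δ : ℝ, Δ = Real.log (Real.log Y / Real.log (Real.log d)) := ⟨_, rfl⟩
  rw [← hΔ] at hΔ1 hΔ2 hΔ3
  rw [← hΔ]
  have hexp : Real.exp (max 400 l₀) ≤ d := hD₂.trans (by exact_mod_cast hd2)
  have hdpos : (0 : ℝ) < d := (Real.exp_pos _).trans_le hexp
  have hd0 : d ≠ 0 := by
    intro h; rw [h] at hdpos; simp at hdpos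
  have hlm : max 400 l₀ ≤ Real.log d := by
    rw [Real.le_log_iff_exp_le hdpos]; exact hexp
  have hl : 400 ≤ Real.log d := (le_max_left _ _).trans hlm
  have hll0 : l₀ ≤ Real.log d := (le_max_right _ _).trans hlm
  have hdr1 : (1 : ℝ) ≤ d := by
    have h1 : Real.exp 0 ≤ Real.exp (max 400 l₀) :=
      Real.exp_le_exp.2 ((by norm_num : (0 : ℝ) ≤ 400).trans (le_max_left _ _))
    rw [Real.exp_zero] at h1
    linarith
  obtain ⟨-, ey0, esq, eL2, eL3, eL4, ea, eb, eK, eq⟩ := hev (Real.log d) hll0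
  set l := Real.log d with hldef
  set u := Real.log l with hu
  set s := Real.log u with hs
  set w := Real.log s with hw
  set Ny := ⌊l / 10⌋₊ with hNy
  have hNyle : (Ny : ℝ) ≤ l / 10 := Nat.floor_le (by linarith)
  have hom := hD₁ d hd1
  set pf := d.primeFactors with hpf
  set S := ((Finset.Icc 1 Ny).filter Nat.Prime) \ pf with hS
  have hSp : ∀ p ∈ S, p.Prime := by
    intro p hp
    rw [hS, Finset.mem_sdiff, Finset.mem_filter] at hp
    exact hp.1.2
  have hSle : ∀ p ∈ S, p ≤ Ny := by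
    intro p hp
    rw [hS, Finset.mem_sdiff, Finset.mem_filter, Finset.mem_Icc] at hp
    exact hp.1.1.2
  have hSd : ∀ p ∈ S, ¬ p ∣ d := by
    intro p hp hpd
    have h1 := hSp p hp
    rw [hS, Finset.mem_sdiff] at hp
    exact hp.2 (Nat.mem_primeFactors.2 ⟨h1, hpd, hd0⟩)
  set P := ∏ p ∈ S, p with hP
  have hPpos : 0 < P := Finset.prod_pos fun p hp => (hSp p hp).pos
  have hPd : Nat.Coprime P d := by
    rw [hP]
    apply Nat.Coprime.prod_left
    intro p hp
    exact (Nat.Prime.coprime_iff_not_dvd (hSp p hp)).2 (hSd p hp)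
  have hPle : P ≤ 4 ^ Ny := by
    refine le_trans ?_ (primorial_le_four_pow Ny)
    unfold primorial
    apply Finset.prod_le_prod_of_subset_of_one_le'
    · intro p hp
      rw [Finset.mem_filter, Finset.mem_range]
      exact ⟨Nat.lt_succ_of_le (hSle p hp), hSp p hp⟩
    · intro p hp _
      rw [Finset.mem_filter] at hp
      exact hp.2.one_lt.le
  have hPr : (P : ℝ) ≤ (d : ℝ) ^ (7 / 50 : ℝ) := by
    have h1 : (P : ℝ) ≤ (4 : ℝ) ^ Ny := by exact_mod_cast hPle
    have h2 : (4 : ℝ) ^ Ny = Real.exp (Ny * Real.log 4) := by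
      rw [← Real.rpow_natCast, Real.rpow_def_of_pos (by norm_num)]
      ring_nf
    have h3 : (d : ℝ) ^ (7 / 50 : ℝ) = Real.exp (l * (7 / 50)) := by
      rw [Real.rpow_def_of_pos hdpos]
    rw [h3]
    rw [h2] at h1
    refine h1.trans (Real.exp_le_exp.2 ?_)
    have h4 : Real.log 4 = 2 * Real.log 2 := by
      rw [show (4 : ℝ) = 2 ^ 2 by norm_num, Real.log_pow]; push_cast; ring
    have h5 := Real.log_two_lt_d9
    have h6 : Real.log 4 ≤ 7 / 5 := by linarith
    have h7 : 0 ≤ Real.log 4 := by rw [h4]; have := Real.log_two_gt_d9; linarith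
    have h8 : 0 ≤ l / 10 := by linarith
    calc (Ny : ℝ) * Real.log 4 ≤ l / 10 * Real.log 4 := mul_le_mul_of_nonneg_right hNyle h7
      _ ≤ l / 10 * (7 / 5) := mul_le_mul_of_nonneg_left h6 h8
      _ = l * (7 / 50) := by ring
  -- the number of shifts
  have hl0 : 0 < l := by linarith
  have hu0 : 0 < u := by linarith
  have hs0 : 0 < s := by linarith
  have hw0 : 0 < w := by linarith
  have hΔ0 : 0 < Δ := by linarith
  have hRR : RR (d : ℝ) = l * u * (w / s ^ 2) := by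
    unfold RR
    rw [← hldef, ← hu, ← hs, ← hw]; ring
  obtain ⟨F, hFdef⟩ : ∃ F : ℝ, F = RR (d : ℝ) * Δ := ⟨_, rfl⟩
  rw [← hFdef]
  have hFF : F = l * u * Δ * (w / s ^ 2) := by rw [hFdef, hRR]; ring
  set t : ℝ := c' * F with ht
  set M := ⌊t⌋₊ with hM
  have hF0 : 0 < F := by rw [hFF]; positivity
  have ht0 : 0 ≤ t := by
    rw [ht]
    positivity
  have hMt : (M : ℝ) ≤ t := Nat.floor_le ht0
  have hphi0 : 0 < (Nat.totient d : ℝ) / d := by
    have : 0 < Nat.totient d := Nat.totient_pos.2 (Nat.pos_of_ne_zero hd0)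
    positivity
  have hphiA : 1 ≤ A' * ((Nat.totient d : ℝ) / d) := by
    rw [mul_div_assoc', le_div_iff₀ hdpos, one_mul]
    refine hphid.trans ?_
    exact mul_le_mul_of_nonneg_right hAA' (Nat.cast_nonneg _)
  have htF : t ≤ F := by
    rw [ht]
    exact mul_le_of_le_one_left hF0.le hc'1
  have hFl : F ≤ l * u ^ 2 * (1 / 100) := by
    rw [hFF]
    calc l * u * Δ * (w / s ^ 2) ≤ l * u * u * (1 / 100) := by gcongr
      _ = _ := by ring
  have htl : t ≤ l ^ 2 := by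
    have h1 : l * u ^ 2 * (1 / 100) ≤ l * l := by
      have h2 := mul_le_mul_of_nonneg_left esq hl0.le
      have h3 : 0 ≤ l * u ^ 2 := by positivity
      linarith
    calc t ≤ _ := htF
      _ ≤ _ := hFl
      _ ≤ l * l := h1
      _ = l ^ 2 := by ring
  -- `y = l / 10`
  set y : ℝ := l / 10 with hy
  have hy0 : 0 < y := by rw [hy]; positivity
  have hlyu : Real.log y ≤ u := Real.log_le_log hy0 (by rw [hy]; linarith)
  have hly0 : 0 < Real.log y := lt_of_lt_of_le (by linarith) ea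
  have hlly : Real.log (Real.log y) ≤ s := Real.log_le_log hly0 hlyu
  have hlly0 : 0 < Real.log (Real.log y) := by
    have h1 : 1 < Real.log y := by
      have : 100 ≤ u := by
        have := Real.log_le_sub_one_of_pos hu0
        linarith
      linarith
    exact Real.log_pos h1
  have hML : (M : ℝ) ≤ y * (Real.log y) ^ 2 := by
    refine hMt.trans (htF.trans (hFl.trans ?_))
    have h1 : u ^ 2 * (9 / 16) ≤ (Real.log y) ^ 2 := by
      calc u ^ 2 * (9 / 16) = (3 / 4 * u) ^ 2 := by ring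
        _ ≤ _ := pow_le_pow_left₀ (by positivity) ea 2
    rw [hy]
    have h2 : 0 ≤ l * u ^ 2 := by positivity
    have h3 : l * (u ^ 2 * (9 / 16)) ≤ l * (Real.log (l / 10)) ^ 2 :=
      mul_le_mul_of_nonneg_left h1 hl0.le
    linarith
  have htlow : l ≤ t := by
    have h6 : 1 / c' ≤ u * w / s ^ 2 := by
      rw [le_div_iff₀ (by positivity)]
      calc 1 / c' * s ^ 2 ≤ u := eK
        _ ≤ u * w := le_mul_of_one_le_right hu0.le eL4
    have h7 : 1 ≤ c' * (u * w / s ^ 2) := by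
      rw [div_le_iff₀ hc'0] at h6
      linarith
    have e : t = l * (c' * (u * w / s ^ 2)) * Δ := by rw [ht, hFF]; ring
    rw [e]
    have h8 : l * 1 ≤ l * (c' * (u * w / s ^ 2)) := mul_le_mul_of_nonneg_left h7 hl0.le
    have h9 : l * (c' * (u * w / s ^ 2)) * 1 ≤ l * (c' * (u * w / s ^ 2)) * Δ :=
      mul_le_mul_of_nonneg_left hΔ1 (by positivity)
    linarith
  have hMt1 : t < M + 1 := Nat.lt_floor_add_one t
  have hMy : y ≤ M := by
    rw [hy]
    linarith
  -- the condition on the prime factors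
  have hcond' : (∑ p ∈ pf with Real.exp (Real.log y * Real.log (Real.log (Real.log y)) /
      (10 * Real.log (Real.log y))) < ((p : ℕ) : ℝ), 1 / ((p : ℕ) : ℝ)) ≤ A / Real.log y := by
    have h1 : u * w / (20 * s) ≤ Real.log y * Real.log (Real.log (Real.log y)) /
        (10 * Real.log (Real.log y)) := by
      rw [div_le_div_iff₀ (by positivity) (by positivity)]
      have h2 : (3 / 4 * u) * (3 / 4 * w) ≤ Real.log y * Real.log (Real.log (Real.log y)) :=
        mul_le_mul ea eb (by positivity) hly0.le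
      have h3 : 0 ≤ u * w := by positivity
      calc u * w * (10 * Real.log (Real.log y)) ≤ u * w * (10 * s) := by gcongr
        _ ≤ (3 / 4 * u * (3 / 4 * w)) * (20 * s) := by
            have h4 := mul_nonneg h3 hs0.le
            have e1 : u * w * (10 * s) = 10 * (u * w * s) := by ring
            have e2 : (3 / 4 * u * (3 / 4 * w)) * (20 * s) = 45 / 4 * (u * w * s) := by ring
            rw [e1, e2]
            linarith
        _ ≤ _ := by gcongr
    have h2 : (∑ p ∈ pf with Real.exp (Real.log y * Real.log (Real.log (Real.log y)) /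
      (10 * Real.log (Real.log y))) < ((p : ℕ) : ℝ), 1 / ((p : ℕ) : ℝ)) ≤
      (∑ p ∈ pf with Real.exp (u * w / (20 * s)) < ((p : ℕ) : ℝ), 1 / ((p : ℕ) : ℝ)) := by
      apply Finset.sum_le_sum_of_subset_of_nonneg
      · intro p hp
        rw [Finset.mem_filter] at hp ⊢
        exact ⟨hp.1, (Real.exp_le_exp.2 h1).trans_lt hp.2⟩
      · intro p _ _
        positivity
    refine h2.trans (hcond.trans ?_)
    exact div_le_div_of_nonneg_left hA hly0 hlyu
  obtain ⟨β, hβ1, hβ2⟩ := hsurv y (by rw [hy]; exact ey0) M hMy hML pf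
    (fun p hp => Nat.prime_of_mem_primeFactors hp) hcond'
  set b : ℕ → ℕ := fun p => β p + p - 1 with hb
  set U := (Finset.range M).filter (fun k => ∀ p ∈ S, ¬ k ≡ b p [MOD p]) with hU
  have hbeq : ∀ k p : ℕ, p.Prime → (k + 1 ≡ β p [MOD p] → k ≡ b p [MOD p]) := by
    intro k p hp h
    have hp1 := hp.one_lt.le
    have h1 : k + 1 ≡ b p + 1 [MOD p] := by
      have h2 : b p + 1 = β p + p := by simp only [hb]; omega
      rw [h2]
      calc k + 1 ≡ β p [MOD p] := h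
        _ ≡ β p + p [MOD p] := by
          have : β p + 0 ≡ β p + p [MOD p] := Nat.ModEq.add_left _ (by
            rw [Nat.ModEq]; simp)
          simpa using this
    exact Nat.ModEq.add_right_cancel' 1 h1
  have hUcard : (U.card : ℝ) ≤ c₁ * ((m + 1 : ℕ) : ℝ) * (l / u) := by
    have h0 : U.card ≤ ((Finset.Icc 1 M).filter (fun k => ∀ p : ℕ, p.Prime → p ∉ pf → (p : ℝ) ≤ y →
        ¬ k ≡ β p [MOD p])).card := by
      rw [← Finset.card_image_of_injective U (add_left_injective 1)]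
      apply Finset.card_le_card
      intro k hk
      rw [Finset.mem_image] at hk
      obtain ⟨k', hk', rfl⟩ := hk
      rw [hU, Finset.mem_filter, Finset.mem_range] at hk'
      rw [Finset.mem_filter, Finset.mem_Icc]
      refine ⟨⟨by omega, by omega⟩, fun p hp hpd hpy h => ?_⟩
      refine hk'.2 p ?_ (hbeq k' p hp h)
      rw [hS, Finset.mem_sdiff, Finset.mem_filter, Finset.mem_Icc]
      exact ⟨⟨⟨hp.one_lt.le, by rw [hNy]; exact Nat.le_floor hpy⟩, hp⟩, hpd⟩
    have h0' : (U.card : ℝ) ≤ (((Finset.Icc 1 M).filter (fun k => ∀ p : ℕ, p.Prime → p ∉ pf → (p : ℝ) ≤ y →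
        ¬ k ≡ β p [MOD p])).card : ℝ) := by exact_mod_cast h0
    rw [← totient_div d hd0] at hβ2
    have h1 : (U.card : ℝ) * ((Nat.totient d : ℝ) / d) ≤ C * M * (Real.log (Real.log y)) ^ 2 /
        ((Real.log y) ^ 2 * Real.log (Real.log (Real.log y))) :=
      (mul_le_mul_of_nonneg_right h0' hphi0.le).trans hβ2
    have h2 : C * M * (Real.log (Real.log y)) ^ 2 /
        ((Real.log y) ^ 2 * Real.log (Real.log (Real.log y))) ≤
        C * t * s ^ 2 / ((3 / 4 * u) ^ 2 * (3 / 4 * w)) := by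
      apply div_le_div₀ (by positivity) _ (by positivity) _
      · gcongr
      · gcongr
    have h3 : C * t * s ^ 2 / ((3 / 4 * u) ^ 2 * (3 / 4 * w)) =
        64 / 27 * C * c' * Δ * (l / u) := by
      rw [ht, hFF]
      field_simp
      norm_num
    have h4 : (U.card : ℝ) ≤ A' * (64 / 27 * C * c' * Δ * (l / u)) := by
      have h5 : (U.card : ℝ) * 1 ≤ U.card * (A' * ((Nat.totient d : ℝ) / d)) :=
        mul_le_mul_of_nonneg_left hphiA (Nat.cast_nonneg _)
      have h6 : A' * ((U.card : ℝ) * ((Nat.totient d : ℝ) / d)) ≤ A' * (64 / 27 * C * c' * Δ * (l / u)) := by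
        apply mul_le_mul_of_nonneg_left _ hA'0.le
        rw [← h3]
        exact h1.trans h2
      linarith
    refine h4.trans ?_
    have h7 : A' * (64 / 27 * C * c' * Δ * (l / u)) ≤ (3 * (A' * C) * c') * Δ * (l / u) := by
      have h8 : 0 ≤ A' * C * c' * Δ * (l / u) := by positivity
      have e1 : A' * (64 / 27 * C * c' * Δ * (l / u)) = 64 / 27 * (A' * C * c' * Δ * (l / u)) := by ring
      have e2 : (3 * (A' * C) * c') * Δ * (l / u) = 3 * (A' * C * c' * Δ * (l / u)) := by ring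
      rw [e1, e2]
      linarith
    refine h7.trans ?_
    apply mul_le_mul_of_nonneg_right _ (by positivity)
    calc 3 * (A' * C) * c' * Δ ≤ 3 * (A' * C) * c' * (2 * ((m + 1 : ℕ) : ℝ)) := by gcongr
      _ = (6 * (A' * C) * c') * ((m + 1 : ℕ) : ℝ) := by ring
      _ ≤ c₁ * ((m + 1 : ℕ) : ℝ) := by gcongr
  -- the residue class modulo the small primes
  obtain ⟨b0, hb0, hb0'⟩ := crt_small S hSp (fun p => b p * d)
  rw [← hP] at hb0
  -- residues modulo the large primes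
  have hinv : ∀ p : ℕ, p.Prime → l ^ 2 < p → ∃ u : ℤ, (p : ℤ) ∣ P * u - 1 := by
    intro p hp hpl
    have h1 : Nat.Coprime P p := by
      rw [hP]
      apply Nat.Coprime.prod_left
      intro r hr
      rw [Nat.coprime_primes (hSp r hr) hp]
      rintro rfl
      have h2 : (r : ℝ) ≤ l / 10 := (by exact_mod_cast hSle r hr : (r : ℝ) ≤ Ny).trans hNyle
      have h3 : l ≤ l ^ 2 := le_self_pow₀ (by linarith) two_ne_zero
      linarith
    obtain ⟨u, w, huw⟩ := Nat.isCoprime_iff_coprime.2 h1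
    refine ⟨u, -w, ?_⟩
    linear_combination huw
  choose! inv hinv using hinv
  set res : ℕ → {k // k ∈ U} → ℤ := fun p k => -((b0 : ℤ) + (k.1 : ℤ) * d) * inv p with hres
  -- the set of candidates
  set m0 : ℤ := (M₀ / P : ℕ) + 1 with hm0
  set Ln : ℕ := ⌊(d : ℝ) ^ (7 / 10 : ℝ) / P⌋₊ - 1 with hLn
  set 𝒜 := (Finset.Ico m0 (m0 + Ln)).filter (fun x => IsCoprime ((b0 : ℤ) + P * x) (d : ℤ)) with h𝒜
  -- size of the interval
  have hPr0 : (0 : ℝ) < P := by exact_mod_cast hPpos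
  have hdP : (d : ℝ) ^ (14 / 25 : ℝ) ≤ (d : ℝ) ^ (7 / 10 : ℝ) / P := by
    rw [le_div_iff₀ hPr0]
    calc (d : ℝ) ^ (14 / 25 : ℝ) * P ≤ (d : ℝ) ^ (14 / 25 : ℝ) * (d : ℝ) ^ (7 / 50 : ℝ) :=
          mul_le_mul_of_nonneg_left hPr (by positivity)
      _ = (d : ℝ) ^ (7 / 10 : ℝ) := by rw [← Real.rpow_add hdpos]; norm_num
  have hbig : ∀ e : ℝ, 1 / 100 ≤ e → 4 ≤ (d : ℝ) ^ e := by
    intro e he
    rw [Real.rpow_def_of_pos hdpos]
    have h1 : (4 : ℝ) ≤ l * e := by
      calc (4 : ℝ) = 400 * (1 / 100) := by norm_num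
        _ ≤ l * e := mul_le_mul hl he (by norm_num) hl0.le
    have h2 := Real.exp_le_exp.2 h1
    have h3 := Real.add_one_le_exp (4 : ℝ)
    linarith
  have hfl1 : 1 ≤ ⌊(d : ℝ) ^ (7 / 10 : ℝ) / P⌋₊ := by
    apply Nat.le_floor
    have := hbig (14 / 25) (by norm_num)
    push_cast
    linarith
  have hLr : (d : ℝ) ^ (14 / 25 : ℝ) / 2 ≤ Ln := by
    have h1 : (d : ℝ) ^ (7 / 10 : ℝ) / P < (⌊(d : ℝ) ^ (7 / 10 : ℝ) / P⌋₊ : ℝ) + 1 := Nat.lt_floor_add_one _
    have h2 : (Ln : ℝ) = (⌊(d : ℝ) ^ (7 / 10 : ℝ) / P⌋₊ : ℝ) - 1 := by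
      rw [hLn, Nat.cast_sub hfl1]
      norm_num
    have h3 := hbig (14 / 25) (by norm_num)
    linarith
  have hN : (d : ℝ) ^ (1 / 2 : ℝ) ≤ Ln * ((Nat.totient d : ℕ) : ℝ) / d := by
    have h1 : (d : ℝ) ^ (-(1 / 20) : ℝ) ≤ (Nat.totient d : ℝ) / d := by
      rw [totient_div d hd0]
      refine le_trans ?_ (prod_ge_half d)
      rw [Real.rpow_neg hdpos.le, one_div_pow, ← one_div]
      exact one_div_le_one_div_of_le (by positivity) hom
    have h3 : (4 : ℝ) ≤ (d : ℝ) ^ (1 / 100 : ℝ) := hbig (1 / 100) (by norm_num)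
    have h4 : (d : ℝ) ^ (14 / 25 : ℝ) * (d : ℝ) ^ (-(1 / 20) : ℝ) =
        (d : ℝ) ^ (1 / 100 : ℝ) * (d : ℝ) ^ (1 / 2 : ℝ) := by
      rw [← Real.rpow_add hdpos, ← Real.rpow_add hdpos]
      norm_num
    have h5 : (0 : ℝ) < (d : ℝ) ^ (1 / 2 : ℝ) := by positivity
    calc (d : ℝ) ^ (1 / 2 : ℝ) ≤ (d : ℝ) ^ (1 / 100 : ℝ) * (d : ℝ) ^ (1 / 2 : ℝ) / 2 := by
          have h6 := mul_le_mul_of_nonneg_right h3 h5.le
          linarith
      _ = (d : ℝ) ^ (14 / 25 : ℝ) / 2 * (d : ℝ) ^ (-(1 / 20) : ℝ) := by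
          rw [← h4]; ring
      _ ≤ Ln * ((Nat.totient d : ℝ) / d) :=
          mul_le_mul hLr h1 (by positivity) (by positivity)
      _ = _ := by ring
  have hErr : (2 : ℝ) ^ pf.card ≤ (d : ℝ) ^ (1 / 10 : ℝ) :=
    hom.trans (Real.rpow_le_rpow_of_exponent_le hdr1 (by norm_num))
  -- apply the covering theorem
  obtain ⟨x, hxA, hx⟩ := hcov d hX0 m hm1 pf (card_primeFactors_le d hd0) {k // k ∈ U}
    (by rw [Fintype.card_coe]; exact hUcard) res (by
      intro p hp hpl _ hpB k k' hkk' hdvd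
      have hpd : ¬ p ∣ d := fun h => hpB (Nat.mem_primeFactors.2 ⟨hp, h, hd0⟩)
      have h1 := hinv p hp hpl
      have hpi : Prime (p : ℤ) := Nat.prime_iff_prime_int.1 hp
      have h2 : res p k - res p k' = -(((k.1 : ℤ) - k'.1) * d * inv p) := by
        simp only [hres]; ring
      rw [h2, dvd_neg] at hdvd
      rcases hpi.dvd_or_dvd hdvd with h3 | h3
      · rcases hpi.dvd_or_dvd h3 with h4 | h4
        · -- p | k - k'
          have hk := (Finset.mem_range.1 (Finset.mem_filter.1 k.2).1)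
          have hk' := (Finset.mem_range.1 (Finset.mem_filter.1 k'.2).1)
          have hMp : M < p := by
            have : (M : ℝ) < p := (hMt.trans htl).trans_lt hpl
            exact_mod_cast this
          have h5 : ((k.1 : ℤ) - k'.1) = 0 := by
            apply Int.eq_zero_of_abs_lt_dvd h4
            rw [abs_lt]
            constructor <;> omega
          apply hkk'
          apply Subtype.ext
          omega
        · exact hpd (by exact_mod_cast h4)
      · -- p | inv p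
        have h6 : (p : ℤ) ∣ 1 := by
          have h7 : (p : ℤ) ∣ P * inv p := Dvd.dvd.mul_left h3 _
          have := dvd_sub h7 h1
          simpa using this
        exact hpi.not_isUnit (isUnit_of_dvd_one h6))
    𝒜 (Ln * ((Nat.totient d : ℕ) : ℝ) / d) (2 ^ pf.card) hN (by positivity) hErr (by
      intro q hq _ hqp r
      have hqpos : 0 < q := Nat.pos_of_ne_zero hq.ne_zero
      have hqd : Nat.Coprime q d := by
        rw [Nat.coprime_iff_gcd_eq_one]
        by_contra hg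
        obtain ⟨p, hp, hpg⟩ := Nat.exists_prime_and_dvd hg
        have h1 : p ∣ q := hpg.trans (Nat.gcd_dvd_left _ _)
        have h2 : p ∣ d := hpg.trans (Nat.gcd_dvd_right _ _)
        exact (hqp p (Nat.mem_primeFactors.2 ⟨hp, h1, hqpos.ne'⟩)).2
          (Nat.mem_primeFactors.2 ⟨hp, h2, hd0⟩)
      exact count_main d P q hd0 hqpos hPd hqd b0 m0 r Ln)
  rw [h𝒜, Finset.mem_filter, Finset.mem_Ico] at hxA
  obtain ⟨⟨hx1, hx2⟩, hxc⟩ := hxA
  -- the residue class
  have hx0 : 0 ≤ x := by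
    have : (0 : ℤ) ≤ (M₀ / P : ℕ) := by positivity
    omega
  obtain ⟨xn, rfl⟩ := Int.eq_ofNat_of_zero_le hx0
  set a := b0 + P * xn with ha
  have haz : ((a : ℕ) : ℤ) = (b0 : ℤ) + P * (xn : ℤ) := by rw [ha]; push_cast; ring
  have hxlow : M₀ / P + 1 ≤ xn := by
    have : m0 ≤ (xn : ℤ) := hx1
    rw [hm0] at this
    exact_mod_cast this
  have hxup : xn < M₀ / P + 1 + Ln := by
    have h1 : (xn : ℤ) < m0 + Ln := hx2
    rw [hm0] at h1
    exact_mod_cast h1
  have haM : M₀ < a := by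
    calc M₀ < P * (M₀ / P + 1) := Nat.lt_mul_div_succ M₀ hPpos
      _ ≤ P * xn := Nat.mul_le_mul_left _ hxlow
      _ ≤ a := by rw [ha]; omega
  have haup : (a : ℝ) ≤ M₀ + (d : ℝ) ^ (7 / 10 : ℝ) := by
    have h1 : a < P * (M₀ / P) + P * ⌊(d : ℝ) ^ (7 / 10 : ℝ) / P⌋₊ := by
      calc a < P + P * xn := by rw [ha]; omega
        _ = P * (xn + 1) := by ring
        _ ≤ P * (M₀ / P + (1 + Ln)) := Nat.mul_le_mul_left _ (by omega)
        _ ≤ P * (M₀ / P + ⌊(d : ℝ) ^ (7 / 10 : ℝ) / P⌋₊) := Nat.mul_le_mul_left _ (by omega)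
        _ = _ := by ring
    have h2 : P * (M₀ / P) ≤ M₀ := Nat.mul_div_le M₀ P
    have h3 : (a : ℝ) ≤ M₀ + P * (⌊(d : ℝ) ^ (7 / 10 : ℝ) / P⌋₊ : ℝ) := by
      have : a ≤ M₀ + P * ⌊(d : ℝ) ^ (7 / 10 : ℝ) / P⌋₊ := by omega
      exact_mod_cast this
    have h4 : (⌊(d : ℝ) ^ (7 / 10 : ℝ) / P⌋₊ : ℝ) ≤ (d : ℝ) ^ (7 / 10 : ℝ) / P :=
      Nat.floor_le (by positivity)
    have h5 : (P : ℝ) * (⌊(d : ℝ) ^ (7 / 10 : ℝ) / P⌋₊ : ℝ) ≤ (d : ℝ) ^ (7 / 10 : ℝ) := by
      calc (P : ℝ) * (⌊(d : ℝ) ^ (7 / 10 : ℝ) / P⌋₊ : ℝ) ≤ P * ((d : ℝ) ^ (7 / 10 : ℝ) / P) :=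
            mul_le_mul_of_nonneg_left h4 hPr0.le
        _ = _ := by field_simp
    linarith
  have hacop : Nat.Coprime a d := by
    rw [← Nat.isCoprime_iff_coprime]
    rw [haz]
    exact hxc
  refine ⟨a, haM, haup, hacop, fun k hkt => ?_⟩
  have hkM : k < M := by
    have h1 : (k : ℝ) ≤ t / 2 := by
      rw [ht]
      linarith
    have h2 : (k : ℝ) < M := by linarith
    exact_mod_cast h2
  have hYl : l ≤ Y := by
    have h1 : l ^ (1 : ℝ) ≤ l ^ ((2 * C₀) ^ 2) :=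
      Real.rpow_le_rpow_of_exponent_le (by linarith) hC2
    rw [Real.rpow_one] at h1
    linarith
  by_cases hkU : k ∈ U
  · obtain ⟨r, hr, hrl, hrX, hrB, hrd⟩ := hx ⟨k, hkU⟩
    refine ⟨r, hr, hrX.trans hm2, ?_⟩
    have h1 := hinv r hr hrl
    have h2 : (r : ℤ) ∣ ((a + k * d : ℕ) : ℤ) := by
      have e : ((a + k * d : ℕ) : ℤ) = P * ((xn : ℤ) - res r ⟨k, hkU⟩) -
          ((b0 : ℤ) + k * d) * (P * inv r - 1) := by
        simp only [hres]
        push_cast
        rw [haz]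
        ring
      rw [e]
      exact dvd_sub (Dvd.dvd.mul_left hrd _) (Dvd.dvd.mul_left h1 _)
    exact_mod_cast h2
  · have h1 : ∃ r ∈ S, k ≡ b r [MOD r] := by
      by_contra hcon
      push Not at hcon
      exact hkU (Finset.mem_filter.2 ⟨Finset.mem_range.2 hkM, hcon⟩)
    obtain ⟨r, hr, hkr⟩ := h1
    have h2 : r ∣ b0 + b r * d := hb0' r hr
    have h3 : r ∣ P := Finset.dvd_prod_of_mem _ hr
    have h4 : a + k * d ≡ 0 [MOD r] := by
      rw [ha]
      have e1 : b0 + P * xn + k * d ≡ b0 + 0 + b r * d [MOD r] := by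
        apply Nat.ModEq.add
        · apply Nat.ModEq.add_left
          exact Nat.modEq_zero_iff_dvd.2 (Dvd.dvd.mul_right h3 _)
        · exact hkr.mul_right d
      refine e1.trans ?_
      rw [add_zero]
      exact Nat.modEq_zero_iff_dvd.2 h2
    refine ⟨r, hSp r hr, ?_, Nat.modEq_zero_iff_dvd.1 h4⟩
    have h7 : (r : ℝ) ≤ l / 10 := (by exact_mod_cast hSle r hr : (r : ℝ) ≤ Ny).trans hNyle
    linarith

end Pool.Agent.TH536.RJ
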